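import Pool.Agent.W350.Final
import Pool.Agent.W350.Concrete

/-!
# The edge of `Lⁱ(M ⊗ A, s)` for Chow motives `M` and all Artin motives `A` over `ℚ`

`M` is a Chow motive over `ℚ` with rational coefficients and `i` an integer.  All that Part A uses
about `M` is the bound `|t_p(m)| ≤ d p^{im/2}`, `d = dim Hⁱ(M)`, for the traces `t_p(m)` of the `m`-th
power of the geometric Frobenius at the primes `p` of good reduction; the factors at the finitely many
other primes are arbitrary.  Part B proves this bound for the motives `M = e(h¹(C₁) ⊗ ⋯ ⊗ h¹(C_n))`,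
where `C_j` is the curve `y² = f_j(x)` with `deg f_j` odd (for instance any elliptic curve) and `e` is an
idempotent of the group algebra of the symmetric group which permutes equal factors only: the direct
summands `(C₁ × ⋯ × C_n, e ∘ π)` of the Chow motives of products of such curves.  For one curve `C`
these are all Schur functors of `h¹(C)`, such as `Symⁿ h¹(C)` and `Λⁿ h¹(C) = hⁿ(Jac C)`.  For all
Chow motives over `ℚ` the bound is Deligne's theorem.

An Artin motive `A` over `ℚ` with rational coefficients is a representation of `Gal(K/ℚ)` on a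
finite-dimensional rational vector space, for some finite Galois extension `K` of `ℚ`; finitely many
Artin motives have a common `K`.
-/

set_option autoImplicit false

namespace Pool.Agent.Results.MP_148101_nt.ArtinTwists

open NumberField Filter Topology Polynomial Representation

/-! ### Part A -/

/-- `|t_p(m)| ≤ D p^{im/2}` for all primes `p ∉ S` and all `m ≥ 1`. -/
def WeightBound (t : Nat.Primes → ℕ → ℂ) (i : ℤ) (S : Finset Nat.Primes) (D : ℝ) : Prop :=
  ∀ p, p ∉ S → ∀ m : ℕ, 1 ≤ m → ‖t p m‖ ≤ D * (p : ℝ) ^ ((i : ℝ) * m / 2)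

/-- `σ` is a Frobenius element at a prime ideal `P` of `K` above `p`, and the inertia group of `P` is
trivial (`p` is unramified in `K`). -/
def IsFrobenius {K : Type} [Field K] [NumberField K] (p : ℕ) (σ : Gal(K/ℚ)) : Prop :=
  ∃ P : Ideal (𝓞 K), P.IsPrime ∧ (p : 𝓞 K) ∈ P ∧ (∀ x : 𝓞 K, σ • x - x ^ p ∈ P) ∧
    ∀ g : Gal(K/ℚ), (∀ x : 𝓞 K, g • x - x ∈ P) → g = 1

open Classical in
/-- The Euler product `Lⁱ(M ⊗ A, s)`, where `t p m` is the trace of the `m`-th power of the Frobenius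
at `p` on `Hⁱ(M)`, and `A` is the representation `ρ` of `Gal(K/ℚ)`.  At the primes `p ∉ S` the factor is
`det(1 - Frob p^{-s} | Hⁱ(M) ⊗ A)⁻¹ = exp(∑_{m ≥ 1} t_p(m) Tr(ρ(Frob_p^m)) p^{-ms} / m)`; at the primes
of the finite set `S`, which contains all primes of bad reduction of `M` and all primes ramified in `K`,
it is `B_p(p^{-s})⁻¹` for some polynomial `B_p`. -/
noncomputable def LFun {K : Type} [Field K] [NumberField K] {V : Type} [AddCommGroup V] [Module ℚ V]
    (t : Nat.Primes → ℕ → ℂ) (ρ : Representation ℚ Gal(K/ℚ) V) (frob : Nat.Primes → Gal(K/ℚ))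
    (S : Finset Nat.Primes) (B : Nat.Primes → ℂ[X]) (s : ℂ) : ℂ :=
  ∏' p : Nat.Primes, if p ∈ S then ((B p).eval (((p : ℕ) : ℂ) ^ (-s)))⁻¹ else
    Complex.exp (∑' m : ℕ, t p (m + 1) * ((LinearMap.trace ℚ V (ρ (frob p ^ (m + 1))) : ℚ) : ℂ) *
      ((p : ℕ) : ℂ) ^ (-((m + 1 : ℂ) * s)) / (m + 1 : ℂ))

/-- The dimension of `End(A)`. -/
noncomputable def endDim {K : Type} [Field K] [NumberField K] {V : Type} [AddCommGroup V]
    [Module ℚ V] (ρ : Representation ℚ Gal(K/ℚ) V) : ℕ :=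
  Module.finrank ℚ (IntertwiningMap ρ ρ)

open Classical in
/-- The quadratic mean `∑_{p ∉ S} |t_p(1)|² p^{-(i+1+ε)}` of the Frobenius traces of `M`. -/
noncomputable def quadMean (t : Nat.Primes → ℕ → ℂ) (i : ℤ) (S : Finset Nat.Primes) (ε : ℝ) : ℝ :=
  ∑' p : Nat.Primes, if p ∈ S then 0 else ‖t p 1‖ ^ 2 * (p : ℝ) ^ (-((i : ℝ) + 1 + ε))

/-! ### Part B -/

/-- The number of points `(x, y)` with coordinates in `F` on the affine curve `y² = f(x)`. -/
noncomputable def affineCount (F : Type) [Field F] (f : ℤ[X]) : ℕ :=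
  Nat.card {P : F × F // P.2 ^ 2 = aeval P.1 f}

/-- The trace of the `m`-th power of the Frobenius at `p` on `H¹` of the smooth projective curve
`y² = f(x)`, `deg f` odd: it is `p^m + 1` minus the number of points over the field with `p^m`
elements, and there is one point at infinity. -/
noncomputable def traceH1 (f : ℤ[X]) (p : Nat.Primes) (m : ℕ) : ℤ :=
  haveI : Fact (p : ℕ).Prime := ⟨p.2⟩
  (p : ℤ) ^ m + 1 - (affineCount (GaloisField p m) f + 1)

/-- The cycles of a permutation, including its fixed points. -/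
abbrev Cyc {n : ℕ} (σ : Equiv.Perm (Fin n)) := Quotient (Equiv.Perm.SameCycle.setoid σ)

/-- The length of a cycle. -/
noncomputable def len {n : ℕ} (σ : Equiv.Perm (Fin n)) (q : Cyc σ) : ℕ :=
  Nat.card {x : Fin n // (Quotient.mk _ x : Cyc σ) = q}

open Classical in
/-- The trace of the `m`-th power of the Frobenius at `p` on `Hⁿ(M) = e(H¹(C₁) ⊗ ⋯ ⊗ H¹(C_n))`, `C_j`
the curve `y² = f_j(x)`: it is `∑_σ e_σ sgn(σ) ∏_q Tr(Frob^{m |q|} | H¹(C_q))` over the permutations
`σ`, where `q` runs over the cycles of `σ` and `C_q` is the common value of the `C_j`, `j ∈ q`.  (The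
sign comes from the commutation of classes of odd degree.) -/
noncomputable def traceM {n : ℕ} (f : Fin n → ℤ[X]) (e : MonoidAlgebra ℚ (Equiv.Perm (Fin n)))
    (p : Nat.Primes) (m : ℕ) : ℂ :=
  ∑ σ : Equiv.Perm (Fin n), ((e.coeff σ * ((Equiv.Perm.sign σ : ℤ) : ℚ) : ℚ) : ℂ) *
    ∏ q : Cyc σ, (traceH1 (f q.out) p (m * len σ q) : ℂ)

open Classical in
/-- The dimension of `Hⁿ(M)`: the same with `Tr(1 | H¹(C_q)) = 2 genus(C_q) = deg f_q - 1`. -/
noncomputable def dimM {n : ℕ} (f : Fin n → ℤ[X]) (e : MonoidAlgebra ℚ (Equiv.Perm (Fin n))) : ℚ :=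
  ∑ σ : Equiv.Perm (Fin n), e.coeff σ * ((Equiv.Perm.sign σ : ℤ) : ℚ) *
    ∏ q : Cyc σ, (((f q.out).natDegree - 1 : ℕ) : ℚ)

/-- **The edge of absolute convergence for all Artin twists of a Chow motive.**

Part A.  Let `M` be a Chow motive over `ℚ` such that `|t_p(m)| ≤ D p^{im/2}` for `p ∉ S`, `m ≥ 1`, and
let `T` be a finite set of indices `k`, each with an Artin motive `A_k ≠ 0` and a height `τ_k ∈ ℝ`, such
that `Hom(A_k, A_l) = 0` for `k ≠ l` in `T` with `τ_k = τ_l`.  Put `s_k = i/2 + 1 + iτ_k`, a point of the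
edge of absolute convergence.

1. (Nothing is assumed about continuation.)  For every `η > 0` and all sufficiently small `ε > 0`,
`∑_k (log |Lⁱ(M ⊗ A_k, s_k + ε)| / log(1/ε))² / dim End(A_k) ≤ quadMean(ε) / log(1/ε) + η`, and
`quadMean(ε) / log(1/ε) ≤ D² + η`.

2. If the `Λ k` are meromorphic continuations of `Lⁱ(M ⊗ A_k, s)` to neighbourhoods of the points
`s_k`, their orders `m_k` at `s_k` are finite and
`∑_k m_k² / dim End(A_k) ≤ N` for every `N` with `quadMean(ε) ≤ N log(1/ε)` for arbitrarily small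
`ε > 0`; in particular `∑_k m_k² / dim End(A_k) ≤ D²`, so that for at most `D²` of the `k` with
`End(A_k) = ℚ` there is a pole or a zero at `s_k`.

Part B.  The bound assumed in Part A holds, with `i = n` and `D = dim Hⁿ(M)`, for all the motives
`M = e(h¹(C₁) ⊗ ⋯ ⊗ h¹(C_n))`, `C_j` the curve `y² = f_j(x)` with `deg f_j` odd, `e` an idempotent of
`ℚ[S_n]` which permutes equal factors only. -/
theorem result :
    (∀ (K : Type) [Field K] [NumberField K] [IsGalois ℚ K] (i : ℤ) (D : ℝ) (_ : 0 ≤ D)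
      (t : Nat.Primes → ℕ → ℂ) (S : Finset Nat.Primes) (_ : WeightBound t i S D)
      (frob : Nat.Primes → Gal(K/ℚ)) (_ : ∀ p, p ∉ S → IsFrobenius (p : ℕ) (frob p))
      (κ : Type) (T : Finset κ) (V : κ → Type) [∀ k, AddCommGroup (V k)] [∀ k, Module ℚ (V k)]
      [∀ k, FiniteDimensional ℚ (V k)] (ρ : ∀ k, Representation ℚ Gal(K/ℚ) (V k)) (τ : κ → ℝ)
      (_ : ∀ k ∈ T, Nontrivial (V k))
      (_ : ∀ k ∈ T, ∀ l ∈ T, k ≠ l → τ k = τ l → Subsingleton (IntertwiningMap (ρ k) (ρ l)))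
      (B : κ → Nat.Primes → ℂ[X])
      (_ : ∀ k ∈ T, ∀ p ∈ S,
        (B k p).eval (((p : ℕ) : ℂ) ^ (-((i : ℂ) / 2 + 1 + τ k * Complex.I))) ≠ 0),
      (∀ η : ℝ, 0 < η → ∀ᶠ ε : ℝ in 𝓝[>] 0,
        ∑ k ∈ T, (Real.log ‖LFun t (ρ k) frob S (B k) ((i : ℂ) / 2 + 1 + τ k * Complex.I + ε)‖ /
          Real.log (1 / ε)) ^ 2 / endDim (ρ k) ≤ quadMean t i S ε / Real.log (1 / ε) + η ∧
        quadMean t i S ε / Real.log (1 / ε) ≤ D ^ 2 + η) ∧
      (∀ Λ : κ → ℂ → ℂ, (∀ k ∈ T, MeromorphicAt (Λ k) ((i : ℂ) / 2 + 1 + τ k * Complex.I) ∧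
        ∀ᶠ s in 𝓝 ((i : ℂ) / 2 + 1 + τ k * Complex.I), (i : ℝ) / 2 + 1 < s.re →
          Λ k s = LFun t (ρ k) frob S (B k) s) →
        ∃ m : κ → ℤ,
          (∀ k ∈ T, meromorphicOrderAt (Λ k) ((i : ℂ) / 2 + 1 + τ k * Complex.I) = m k) ∧
          (∀ N : ℝ, (∃ᶠ ε : ℝ in 𝓝[>] 0, quadMean t i S ε ≤ N * Real.log (1 / ε)) →
            ∑ k ∈ T, (m k : ℝ) ^ 2 / endDim (ρ k) ≤ N) ∧
          ∑ k ∈ T, (m k : ℝ) ^ 2 / endDim (ρ k) ≤ D ^ 2 ∧
          ((T.filter fun k => m k ≠ 0 ∧ endDim (ρ k) = 1).card : ℝ) ≤ D ^ 2)) ∧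
    (∀ (n : ℕ) (f : Fin n → ℤ[X]) (_ : ∀ j, Odd (f j).natDegree)
      (e : MonoidAlgebra ℚ (Equiv.Perm (Fin n))) (_ : e * e = e)
      (_ : ∀ σ, e.coeff σ ≠ 0 → ∀ j, f (σ j) = f j) (S : Finset Nat.Primes)
      (_ : ∀ p, p ∉ S → ∀ j, ¬ ((p : ℕ) : ℤ) ∣ 2 * (f j).leadingCoeff ∧
        ((f j).map (Int.castRingHom (ZMod p))).Separable),
      0 ≤ dimM f e ∧ WeightBound (traceM f e) n S (dimM f e)) := by
  classical
  refine ⟨?_, ?_⟩
  · intro K _ _ _ i D hd t S ht frob hfrob κ T V _ _ _ ρ τ hV hsep B hB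
    have hedge : ∀ k, ((i : ℂ) / 2 + 1 + τ k * Complex.I) =
        (((i : ℝ) / 2 + 1 : ℝ) : ℂ) + (τ k : ℂ) * Complex.I := by
      intro k
      push_cast
      rfl
    simp only [hedge] at hB ⊢
    have ht' : ∀ p, p ∉ S → ∀ m : ℕ, ‖t p (m + 1)‖ ≤ D * ((p : ℝ) ^ ((i : ℝ) / 2)) ^ (m + 1) := by
      intro p hp m
      refine (ht p hp (m + 1) (Nat.le_add_left 1 m)).trans (le_of_eq ?_)
      rw [← Real.rpow_natCast, ← Real.rpow_mul (Nat.cast_nonneg _)]
      congr 2
      ring
    have hfrob' : ∀ p, p ∉ S → ∃ P, Pool.Agent.W350.IsFrob (p : ℕ) (frob p) P := by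
      intro p hp
      obtain ⟨P, h1, h2, h3, h4⟩ := hfrob p hp
      exact ⟨P, ⟨h1, h2, h3, h4⟩⟩
    have hn : ∀ k ∈ T, (0 : ℝ) < (endDim (ρ k) : ℝ) := by
      intro k hk
      have := hV k hk
      have h1 : 0 < endDim (ρ k) := by
        unfold endDim
        rw [Module.finrank_pos_iff]
        refine ⟨⟨0, 1, fun h => ?_⟩⟩
        obtain ⟨x, hx⟩ := exists_ne (0 : V k)
        have h2 := congrArg (fun f : IntertwiningMap (ρ k) (ρ k) => f x) h
        exact hx h2.symm
      exact_mod_cast h1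
    have horth : ∀ k ∈ T, ∀ l ∈ T, Pool.Agent.H341R2.PNegl fun p =>
        (Pool.Agent.W350.vk ρ frob τ k p * (starRingEnd ℂ) (Pool.Agent.W350.vk ρ frob τ l p)).re -
          if k = l then (endDim (ρ k) : ℝ) else 0 := by
      intro k hk l hl
      refine Pool.Agent.W350.vk_orth S frob hfrob' ρ τ k l ?_
      by_cases hkl : k = l
      · exact Or.inl hkl
      · by_cases hτ : τ k = τ l
        · exact Or.inr (Or.inr (hsep k hk l hl hkl hτ))
        · exact Or.inr (Or.inl hτ)
    have hquad : ∀ ε : ℝ, Pool.Agent.H341R2.E ε (fun p => ‖Pool.Agent.W350.tn t i S p‖ ^ 2) =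
        quadMean t i S ε := by
      intro ε
      unfold Pool.Agent.H341R2.E quadMean
      refine tsum_congr fun p => ?_
      unfold Pool.Agent.W350.tn
      beta_reduce
      by_cases hp : p ∈ S
      · rw [if_pos hp, if_pos hp]
        simp
      · rw [if_neg hp, if_neg hp]
        have hp0 : (0 : ℝ) < p := by exact_mod_cast p.2.pos
        rw [norm_mul, Complex.norm_real, Real.norm_eq_abs, abs_of_nonneg (by positivity), mul_pow,
          mul_assoc, ← Real.rpow_natCast ((p : ℝ) ^ (-((i : ℝ) / 2))), ← Real.rpow_mul hp0.le,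
          ← Real.rpow_add hp0]
        congr 2
        push_cast
        ring
    have hfinal := fun (L : κ → ℝ → ℝ) hL (η : ℝ) (hη : 0 < η) =>
      Pool.Agent.W350.final1 T (Pool.Agent.W350.tn t i S) (Pool.Agent.W350.vk ρ frob τ)
        (fun k => (endDim (ρ k) : ℝ)) hn D (Pool.Agent.W350.norm_tn_le hd ht')
        (fun k => Pool.Agent.W350.cr (ρ k)) (Pool.Agent.W350.norm_vk_le ρ frob τ) horth L hL hη
    simp only [hquad] at hfinal
    refine ⟨fun η hη => ?_, fun Λ hΛ => ?_⟩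
    · exact hfinal (fun k ε => Real.log ‖LFun t (ρ k) frob S (B k)
        ((((i : ℝ) / 2 + 1 : ℝ) : ℂ) + (τ k : ℂ) * Complex.I + ε)‖)
        (fun k hk => Pool.Agent.W350.logL hd ht' ρ frob τ k (B k) (hB k hk)) η hη
    · have hord : ∀ k, ∃ m : ℤ, k ∈ T → meromorphicOrderAt (Λ k)
          ((((i : ℝ) / 2 + 1 : ℝ) : ℂ) + (τ k : ℂ) * Complex.I) = m ∧
          ∃ C' : ℝ, ∀ᶠ ε : ℝ in 𝓝[>] 0,
          |(Pool.Agent.H341R2.E ε fun p => (Pool.Agent.W350.tn t i S p *
            (starRingEnd ℂ) (Pool.Agent.W350.vk ρ frob τ k p)).re) +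
              m * Pool.Agent.H341R2.lam ε| ≤ C' := by
        intro k
        by_cases hk : k ∈ T
        · obtain ⟨m, hm⟩ := Pool.Agent.W350.orderL hd ht' ρ frob τ k (B k) (hB k hk) (hΛ k hk).1
            (hΛ k hk).2
          exact ⟨m, fun _ => hm⟩
        · exact ⟨0, fun h => absurd h hk⟩
      choose m hm using hord
      have key : ∀ η : ℝ, 0 < η → ∀ᶠ ε : ℝ in 𝓝[>] 0,
          ∑ k ∈ T, (m k : ℝ) ^ 2 / endDim (ρ k) ≤ quadMean t i S ε / Real.log (1 / ε) + η ∧
          quadMean t i S ε / Real.log (1 / ε) ≤ D ^ 2 + η := by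
        intro η hη
        have h1 := hfinal (fun k ε => -(m k : ℝ) * Real.log (1 / ε)) (by
          intro k hk
          obtain ⟨C', hC'⟩ := (hm k hk).2
          obtain ⟨C0, hC0⟩ := Pool.Agent.H341R2.lam_bounded
          refine ⟨C' + |(m k : ℝ)| * C0, ?_⟩
          filter_upwards [hC', hC0] with ε h1 h2
          have h3 : (Pool.Agent.H341R2.E ε fun p => (Pool.Agent.W350.tn t i S p *
              (starRingEnd ℂ) (Pool.Agent.W350.vk ρ frob τ k p)).re) -
                -(m k : ℝ) * Real.log (1 / ε) =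
              ((Pool.Agent.H341R2.E ε fun p => (Pool.Agent.W350.tn t i S p *
              (starRingEnd ℂ) (Pool.Agent.W350.vk ρ frob τ k p)).re) +
                m k * Pool.Agent.H341R2.lam ε) -
                m k * (Pool.Agent.H341R2.lam ε + Real.log ε) := by
            rw [one_div, Real.log_inv]
            ring
          rw [h3]
          refine (abs_sub _ _).trans (add_le_add h1 ?_)
          rw [abs_mul]
          exact mul_le_mul_of_nonneg_left h2 (abs_nonneg _)) η hη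
        filter_upwards [h1, Pool.Agent.W350.tendsto_logInv.eventually_gt_atTop 0] with ε h2 h3
        refine ⟨?_, h2.2⟩
        refine le_trans (le_of_eq (Finset.sum_congr rfl fun k _ => ?_)) h2.1
        rw [mul_div_assoc, div_self h3.ne', mul_one, neg_sq]
      have hN : ∀ N : ℝ, (∃ᶠ ε : ℝ in 𝓝[>] 0, quadMean t i S ε ≤ N * Real.log (1 / ε)) →
            ∑ k ∈ T, (m k : ℝ) ^ 2 / endDim (ρ k) ≤ N := by
        intro N hfreq
        refine le_of_forall_pos_le_add fun η hη => ?_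
        obtain ⟨ε, h1, h2, h3⟩ := (hfreq.and_eventually ((key η hη).and
          (Pool.Agent.W350.tendsto_logInv.eventually_gt_atTop 0))).exists
        have h4 : quadMean t i S ε / Real.log (1 / ε) ≤ N := by
          rw [div_le_iff₀ h3]
          exact h1
        linarith [h2.1]
      have hsq : ∑ k ∈ T, (m k : ℝ) ^ 2 / endDim (ρ k) ≤ D ^ 2 := by
        refine le_of_forall_pos_le_add fun η hη => ?_
        obtain ⟨ε, h1⟩ := (key (η / 2) (by positivity)).exists
        linarith [h1.1, h1.2]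
      refine ⟨m, fun k hk => (hm k hk).1, hN, hsq, ?_⟩
      refine le_trans ?_ hsq
      rw [Finset.card_eq_sum_ones]
      push_cast
      rw [Finset.sum_filter]
      refine Finset.sum_le_sum fun k hk => ?_
      split_ifs with h6
      · rw [h6.2]
        have h7 : (1 : ℝ) ≤ (m k : ℝ) ^ 2 := by
          have h8 := Int.one_le_abs h6.1
          have h9 : (1 : ℝ) ≤ |(m k : ℝ)| := by exact_mod_cast h8
          nlinarith [sq_abs (m k : ℝ)]
        simpa using h7
      · positivity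
  · intro n f hodd e he hinv S hS
    have htr : ∀ g : ℤ[X], Odd g.natDegree → ∀ p m, traceH1 g p m =
        Pool.Agent.H341R2.traceH1 g 1 p m := by
      intro g hg p m
      have : Fact (p : ℕ).Prime := ⟨p.2⟩
      unfold traceH1 Pool.Agent.H341R2.traceH1 Pool.Agent.H341R2.curveCount
        Pool.Agent.H341R2.infinityCount Pool.Agent.H341R2.affineCount affineCount
      rw [if_pos hg]
      simp only [Int.cast_one, one_mul]
      push_cast
      rfl
    refine ⟨Pool.Agent.W350.dim_nonneg e he (fun j => (f j).natDegree - 1)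
      (fun σ hσ j => by simp only [hinv σ hσ j]), ?_⟩
    intro p hp m hm
    have h1 := Pool.Agent.W350.concrete_bound f hodd e he hinv (p := p)
      (fun j => ⟨by rw [mul_one]; exact (hS p hp j).1, (hS p hp j).2⟩) hm
    unfold traceM dimM
    simp only [htr _ (hodd _)]
    push_cast at h1 ⊢
    exact h1

end Pool.Agent.Results.MP_148101_nt.ArtinTwists
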