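import Pool.Agent.W350.Edge6
import Pool.Agent.W350.Concrete

/-!
# Boundary values of `Lⁱ(M, s)` on the edge of absolute convergence, for every Chow motive `M` over `ℚ`

`M` is a Chow motive over `ℚ` and `i` an integer.  All that Part A uses about `M` is the bound
`|t_p(m)| ≤ D p^{im/2}`, `D = dim Hⁱ(M)`, for the traces `t_p(m)` of the `m`-th power of the Frobenius
on `Hⁱ(M)` at the primes `p` of good reduction (Deligne's theorem); the factors at the finitely many
other primes are arbitrary.  Part B proves this bound for the motives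
`M = e(h¹(C₁) ⊗ ⋯ ⊗ h¹(C_n))`, where `C_j` is the curve `y² = f_j(x)` with `deg f_j` odd and `e` is an
idempotent of the group algebra of the symmetric group which permutes equal factors only.
-/

set_option autoImplicit false

namespace Pool.Agent.Results.MP_148101_nt.EdgeConvergence

open Filter Topology Polynomial

/-! ### Part A -/

/-- `|t_p(m)| ≤ D p^{im/2}` for all primes `p ∉ S` and all `m ≥ 1`. -/
def WeightBound (t : ℕ → ℕ → ℂ) (i : ℤ) (S : Finset ℕ) (D : ℝ) : Prop :=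
  ∀ p, p.Prime → p ∉ S → ∀ m : ℕ, 1 ≤ m → ‖t p m‖ ≤ D * (p : ℝ) ^ ((i : ℝ) * m / 2)

open Classical in
/-- The Euler factor of `Lⁱ(M, s)` at `p`.  If `p ∉ S` it is
`det(1 - Frob p^{-s} | Hⁱ(M))⁻¹ = exp(∑_{m ≥ 1} t_p(m) p^{-ms} / m)`; if `p` is in the finite set `S`,
which contains all primes of bad reduction, it is `B_p(p^{-s})⁻¹` for some polynomial `B_p`. -/
noncomputable def factor (t : ℕ → ℕ → ℂ) (S : Finset ℕ) (B : ℕ → ℂ[X]) (s : ℂ) (p : ℕ) : ℂ :=
  if p ∈ S then ((B p).eval ((p : ℂ) ^ (-s)))⁻¹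
  else Complex.exp (∑' m : ℕ, t p (m + 1) * (p : ℂ) ^ (-((m + 1 : ℂ) * s)) / (m + 1 : ℂ))

/-- The Euler product `Lⁱ(M, s)`. -/
noncomputable def LFun (t : ℕ → ℕ → ℂ) (S : Finset ℕ) (B : ℕ → ℂ[X]) (s : ℂ) : ℂ :=
  ∏' p : Nat.Primes, factor t S B s p

/-- The point `i/2 + 1 + iτ` of the edge of absolute convergence. -/
noncomputable def edgePoint (i : ℤ) (τ : ℝ) : ℂ := (((i : ℝ) / 2 + 1 : ℝ) : ℂ) + (τ : ℂ) * Complex.I

/-- The angle `|s - s_τ| ≤ K (Re s - i/2 - 1)` at `s_τ = i/2 + 1 + iτ` in the half-plane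
`Re s > i/2 + 1`. -/
def angle (i : ℤ) (τ K : ℝ) : Set ℂ :=
  {s : ℂ | (i : ℝ) / 2 + 1 < s.re ∧ ‖s - edgePoint i τ‖ ≤ K * (s.re - ((i : ℝ) / 2 + 1))}

/-! ### Part B -/

/-- The number of points `(x, y)` with coordinates in `F` on the affine curve `y² = f(x)`. -/
noncomputable def affineCount (F : Type) [Field F] (f : ℤ[X]) : ℕ :=
  Nat.card {P : F × F // P.2 ^ 2 = aeval P.1 f}

/-- The trace of the `m`-th power of the Frobenius at `p` on `H¹` of the smooth projective curve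
`y² = f(x)`, `deg f` odd: it is `p^m + 1` minus the number of points over the field with `p^m`
elements, and there is one point at infinity. -/
noncomputable def traceH1 (f : ℤ[X]) (p : Nat.Primes) (m : ℕ) : ℤ :=
  haveI : Fact (p : ℕ).Prime := ⟨p.2⟩
  (p : ℤ) ^ m + 1 - (affineCount (GaloisField p m) f + 1)

/-- The cycles of a permutation, including its fixed points. -/
abbrev Cyc {n : ℕ} (σ : Equiv.Perm (Fin n)) := Quotient (Equiv.Perm.SameCycle.setoid σ)

/-- The length of a cycle. -/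
noncomputable def len {n : ℕ} (σ : Equiv.Perm (Fin n)) (q : Cyc σ) : ℕ :=
  Nat.card {x : Fin n // (Quotient.mk _ x : Cyc σ) = q}

open Classical in
/-- The trace of the `m`-th power of the Frobenius at a prime `p` on
`Hⁿ(M) = e(H¹(C₁) ⊗ ⋯ ⊗ H¹(C_n))`, `C_j` the curve `y² = f_j(x)`: it is
`∑_σ e_σ sgn(σ) ∏_q Tr(Frob^{m |q|} | H¹(C_q))` over the permutations `σ`, where `q` runs over the cycles
of `σ` and `C_q` is the common value of the `C_j`, `j ∈ q`.  (The sign comes from the commutation of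
classes of odd degree.) -/
noncomputable def traceM {n : ℕ} (f : Fin n → ℤ[X]) (e : MonoidAlgebra ℚ (Equiv.Perm (Fin n)))
    (p m : ℕ) : ℂ :=
  if h : p.Prime then
    ∑ σ : Equiv.Perm (Fin n), ((e.coeff σ * ((Equiv.Perm.sign σ : ℤ) : ℚ) : ℚ) : ℂ) *
      ∏ q : Cyc σ, (traceH1 (f q.out) ⟨p, h⟩ (m * len σ q) : ℂ)
  else 0

open Classical in
/-- The dimension of `Hⁿ(M)`: the same with `Tr(1 | H¹(C_q)) = 2 genus(C_q) = deg f_q - 1`. -/
noncomputable def dimM {n : ℕ} (f : Fin n → ℤ[X]) (e : MonoidAlgebra ℚ (Equiv.Perm (Fin n))) : ℚ :=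
  ∑ σ : Equiv.Perm (Fin n), e.coeff σ * ((Equiv.Perm.sign σ : ℤ) : ℚ) *
    ∏ q : Cyc σ, (((f q.out).natDegree - 1 : ℕ) : ℚ)

/-- **Boundary values on the edge of absolute convergence outside a set of dimension zero.**

Part A.  Let `M` be a Chow motive over `ℚ` such that `|t_p(m)| ≤ D p^{im/2}` for `p ∉ S`, `m ≥ 1`.
There is a set `E` of real numbers of Hausdorff dimension `0` such that for every real `τ ∉ E`, with
`s_τ = i/2 + 1 + iτ`, there is a number `l ≠ 0` such that

* the Euler product converges at `s_τ` to `l`: the product of the Euler factors at `s_τ` over the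
  primes `p < x` tends to `l` as `x → ∞`;
* `Lⁱ(M, s)` tends to `l` as `s` tends to `s_τ` in any angle `|s - s_τ| ≤ K (Re s - i/2 - 1)` in the
  half-plane of absolute convergence.

Part B.  The bound assumed in Part A holds, with `i = n` and `D = dim Hⁿ(M)`, for all the motives
`M = e(h¹(C₁) ⊗ ⋯ ⊗ h¹(C_n))`, `C_j` the curve `y² = f_j(x)` with `deg f_j` odd, `e` an idempotent of
`ℚ[S_n]` which permutes equal factors only. -/
theorem result :
    (∀ (i : ℤ) (D : ℝ) (t : ℕ → ℕ → ℂ) (S : Finset ℕ) (_ : WeightBound t i S D) (B : ℕ → ℂ[X])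
      (_ : ∀ p ∈ S, B p ≠ 0),
      ∃ E : Set ℝ, dimH E = 0 ∧ ∀ τ : ℝ, τ ∉ E → ∃ l : ℂ, l ≠ 0 ∧
        Tendsto (fun x : ℕ => ∏ p ∈ Nat.primesBelow x, factor t S B (edgePoint i τ) p) atTop (𝓝 l) ∧
        ∀ K : ℝ, Tendsto (LFun t S B) (𝓝[angle i τ K] (edgePoint i τ)) (𝓝 l)) ∧
    (∀ (n : ℕ) (f : Fin n → ℤ[X]) (_ : ∀ j, Odd (f j).natDegree)
      (e : MonoidAlgebra ℚ (Equiv.Perm (Fin n))) (_ : e * e = e)
      (_ : ∀ σ, e.coeff σ ≠ 0 → ∀ j, f (σ j) = f j) (S : Finset ℕ)
      (_ : ∀ p, p.Prime → p ∉ S → ∀ j, ¬ (p : ℤ) ∣ 2 * (f j).leadingCoeff ∧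
        ((f j).map (Int.castRingHom (ZMod p))).Separable),
      WeightBound (traceM f e) n S (dimM f e)) := by
  refine ⟨?_, ?_⟩
  · intro i D t S ht B hB
    have ht' : Pool.Agent.W350.Edge.WB t (i : ℝ) S D := by
      intro p hp hpS m
      refine (ht p hp hpS (m + 1) (Nat.le_add_left 1 m)).trans (le_of_eq ?_)
      rw [← Real.rpow_natCast, ← Real.rpow_mul (Nat.cast_nonneg _)]
      congr 2
      push_cast
      ring
    exact Pool.Agent.W350.Edge.boundary ht' B hB
  · intro n f hodd e he hinv S hS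
    have htr : ∀ g : ℤ[X], Odd g.natDegree → ∀ p m, traceH1 g p m =
        Pool.Agent.H341R2.traceH1 g 1 p m := by
      intro g hg p m
      have : Fact (p : ℕ).Prime := ⟨p.2⟩
      unfold traceH1 Pool.Agent.H341R2.traceH1 Pool.Agent.H341R2.curveCount
        Pool.Agent.H341R2.infinityCount Pool.Agent.H341R2.affineCount affineCount
      rw [if_pos hg]
      simp only [Int.cast_one, one_mul]
      push_cast
      rfl
    intro p hpp hp m hm
    have h1 := Pool.Agent.W350.concrete_bound f hodd e he hinv (p := ⟨p, hpp⟩)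
      (fun j => ⟨by rw [mul_one]; exact (hS p hpp hp j).1, (hS p hpp hp j).2⟩) hm
    unfold traceM dimM
    rw [dif_pos hpp]
    simp only [htr _ (hodd _)]
    push_cast at h1 ⊢
    exact h1

end Pool.Agent.Results.MP_148101_nt.EdgeConvergence
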