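import Pool.Agent.W353.EH.Main

/-!
# Poles and zeros on the edge line over all number fields of bounded degree

`X` is a smooth projective variety over a number field `K`, for example over `K = ℚ`, and `i` an
integer.  For every number field `F ⊇ K` the variety `X_F`, seen as a variety over `ℚ`, is smooth and
projective, and `L(H^i(X_F), s)` is the `L`-function of the Chow motive of this variety.  The theorem is
about the poles and zeros on the line `Re s = i/2 + 1`, the boundary of the half plane of absolute
convergence, for fixed `X` and varying `F`.  Nothing is assumed about the automorphy of `H^i(X)`.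
The definitions are in `Pool.Agent.W353.EH.Defs` and `Pool.Agent.W353.EF.Defs`.
-/

set_option autoImplicit false

namespace Pool.Agent.Results.MP_148101_nt.EdgeLine

open NumberField Pool.Agent.W353.EH

/-- **One extension and finitely many heights govern the edge line.**  Let `X` be a projective variety
of dimension `d` over a number field `K` (for instance `K = ℚ`), `0 ≤ i ≤ 2d` and `N` the `i`-th Betti
number.  For all `c` and `k ≥ 1` there are a finite Galois extension `M/K` and a set `Θ` of at most
`2 c (kN)²` real numbers with the following properties, for all number fields `F ⊇ K` such that
`F ⊗_K F` is a product of at most `c` fields and all points `s_τ = i/2 + 1 + iτ` of the edge line.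
* If `τ` is not in `Θ`, then `|log |L(H^i(X_F), s_τ + ε)| / log(1/ε)| < 1/k` for arbitrarily small `ε > 0`;
and if `L(H^i(X_F), s)` has a meromorphic continuation to a neighbourhood of `s_τ`, then it has neither
a pole nor a zero there.
* For every `τ`, the values of `log |L(s_τ + ε)| / log(1/ε)` for `X_F` and for `X_{F ∩ M}` differ by less
than `1/k` for arbitrarily small `ε > 0`; and the orders of `L(H^i(X_F), s)` and `L(H^i(X_{F ∩ M}), s)` at
`s_τ` are equal, if both functions have meromorphic continuations to a neighbourhood of this point.

For all number fields `F ⊇ K` of degree at most `c`, this holds for some `M` of degree at most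
`(c!)^(2 c (kN)²)` and some `Θ` with at most `2 c (kN)²` elements. -/
theorem result (K : Type) [Field K] [NumberField K] (n d i N : ℕ)
    (X : Set (MvPolynomial (Fin n) (𝓞 K))) (hi : i ≤ 2 * d) (c k : ℕ) (hk : 1 ≤ k) :
    EdgeGoverned X d i N c k := by
  obtain ⟨n₀, h⟩ := all N
  exact (h K n d i X hi).1 c k hk

end Pool.Agent.Results.MP_148101_nt.EdgeLine
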