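import Pool.Agent.W385.GA.Orders
import Pool.Agent.W385.GA.Curve

/-!
# One Artin representation governs the poles of all Artin twists at the edge

`F` is a number field (the problem is the case `F = ℚ`) and `M` a Chow motive over `F`.  All that the
theorem uses about `M` is the bound `|t_v(m)| ≤ D q_v^{im/2}`, `D = dim Hⁱ(M)`, for the traces
`t_v(m)` of the `m`-th power of the geometric Frobenius on `Hⁱ(M)` at the places `v` of good
reduction.  Part III proves this bound for the motives `M = e(h¹(C₁) ⊗ ⋯ ⊗ h¹(C_n))`, where `C_j` is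
the curve `y² = f_j(x)` over `F` with `deg f_j` odd (for instance any elliptic curve) and `e` is an
idempotent of the group algebra of the symmetric group which permutes equal factors only.  For all
Chow motives it is Deligne's theorem.

An Artin representation `A` of `F` is a representation of `Gal(F̄/F)` on `ℂⁿ` that is trivial on an
open subgroup.  Since `L(M ⊗ Ind C, s)` is the `L`-function of `M ⊗ C` over `F'` for a finite extension
`F'` of `F` and an Artin representation `C` of `F'`, the twists `M ⊗ A` contain all twists of `M` over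
all finite extensions of `F`.
-/

set_option autoImplicit false

namespace Pool.Agent.Results.MP_148101_nt.OneGoverningField

open NumberField IsDedekindDomain Filter Topology Polynomial
open Pool.Agent.W385.GA (ArtinRep homDim)

/-- `|t_v(m)| ≤ D q_v^{im/2}` for all places `v ∉ S₀` and all `m ≥ 1`. -/
def WeightBound {F : Type} [Field F] [NumberField F] (t : HeightOneSpectrum (𝓞 F) → ℕ → ℂ) (i : ℤ)
    (S₀ : Finset (HeightOneSpectrum (𝓞 F))) (D : ℝ) : Prop :=
  ∀ v, v ∉ S₀ → ∀ m : ℕ, 1 ≤ m → ‖t v m‖ ≤ D * (Ideal.absNorm v.asIdeal : ℝ) ^ ((i : ℝ) * m / 2)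

/-- `σ` is a Frobenius element at the prime `v` of `F`: there is a maximal ideal `Q` above `v` of the
ring of all algebraic integers with `σ x ≡ x ^ q_v` modulo `Q` for all `x`. -/
def IsFrobenius {F : Type} [Field F] [NumberField F] (v : HeightOneSpectrum (𝓞 F))
    (σ : Gal(AlgebraicClosure F/F)) : Prop :=
  ∃ Q : Ideal (𝓞 (AlgebraicClosure F)), Q.IsMaximal ∧
    Q.comap (algebraMap (𝓞 F) (𝓞 (AlgebraicClosure F))) = v.asIdeal ∧
    ∀ x : 𝓞 (AlgebraicClosure F), σ • x - x ^ Ideal.absNorm v.asIdeal ∈ Q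

/-- The representation `A` is unramified at `v`: the inertia groups of the maximal ideals above `v`
act trivially. -/
def Unramified {F : Type} [Field F] [NumberField F] (A : ArtinRep F)
    (v : HeightOneSpectrum (𝓞 F)) : Prop :=
  ∀ Q : Ideal (𝓞 (AlgebraicClosure F)), Q.IsMaximal →
    Q.comap (algebraMap (𝓞 F) (𝓞 (AlgebraicClosure F))) = v.asIdeal →
    ∀ g : Gal(AlgebraicClosure F/F), (∀ x : 𝓞 (AlgebraicClosure F), g • x - x ∈ Q) → A.ρ g = 1

open Classical in
/-- The Euler product `Lⁱ(M ⊗ A, s)`, where `t v m` is the trace of the `m`-th power of the geometric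
Frobenius at `v` on `Hⁱ(M)`.  At the places `v ∉ S` the factor is
`det(1 - Frob q_v^{-s} | Hⁱ(M) ⊗ A)⁻¹ = exp(∑_{m ≥ 1} t_v(m) Tr(A(Frob_v^m)) q_v^{-ms} / m)`, with the
geometric Frobenius `Frob_v`, the inverse of `frob v`; at the places of the finite set `S` it is
`B_v(q_v^{-s})⁻¹` for some polynomial `B_v`. -/
noncomputable def LFun {F : Type} [Field F] [NumberField F] (t : HeightOneSpectrum (𝓞 F) → ℕ → ℂ)
    (frob : HeightOneSpectrum (𝓞 F) → Gal(AlgebraicClosure F/F)) (A : ArtinRep F)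
    (S : Finset (HeightOneSpectrum (𝓞 F))) (B : HeightOneSpectrum (𝓞 F) → ℂ[X]) (s : ℂ) : ℂ :=
  ∏' v : HeightOneSpectrum (𝓞 F),
    if v ∈ S then ((B v).eval (((Ideal.absNorm v.asIdeal : ℕ) : ℂ) ^ (-s)))⁻¹
    else Complex.exp (∑' m : ℕ, t v (m + 1) * A.ρ.character ((frob v)⁻¹ ^ (m + 1)) *
      ((Ideal.absNorm v.asIdeal : ℕ) : ℂ) ^ (-((m + 1 : ℂ) * s)) / (m + 1 : ℂ))

/-- The point `i/2 + 1 + iτ` of the edge of absolute convergence. -/
noncomputable def edgePoint (i : ℤ) (τ : ℝ) : ℂ := (i : ℂ) / 2 + 1 + τ * Complex.I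

/-- `L` is the `L`-function of `M ⊗ A`: its Euler product, with polynomials that do not vanish at the
points of the edge as factors at a finite set of places, which contains the bad places of `M` and of
`A`. -/
def IsLFunction {F : Type} [Field F] [NumberField F] (t : HeightOneSpectrum (𝓞 F) → ℕ → ℂ)
    (frob : HeightOneSpectrum (𝓞 F) → Gal(AlgebraicClosure F/F)) (i : ℤ)
    (S₀ : Finset (HeightOneSpectrum (𝓞 F))) (A : ArtinRep F) (L : ℂ → ℂ) : Prop :=
  ∃ (S : Finset (HeightOneSpectrum (𝓞 F))) (B : HeightOneSpectrum (𝓞 F) → ℂ[X]), S₀ ⊆ S ∧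
    (∀ v, v ∉ S → Unramified A v) ∧
    (∀ v ∈ S, ∀ τ : ℝ, (B v).eval (((Ideal.absNorm v.asIdeal : ℕ) : ℂ) ^ (-edgePoint i τ)) ≠ 0) ∧
    L = LFun t frob A S B

/-- `log |L(s_τ + ε)| / log (1/ε)` at the edge point `s_τ`. -/
noncomputable def size (L : ℂ → ℂ) (i : ℤ) (τ ε : ℝ) : ℝ :=
  Real.log ‖L (edgePoint i τ + ε)‖ / Real.log (1 / ε)

/-- `L` has order `m` at the edge point `s_τ` (order `-m` of a pole), measured from the right:
`log |L(s_τ + ε)| / log (1/ε)` tends to `-m`.  By part 0 of the theorem this is so whenever `L` has a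
meromorphic continuation to a neighbourhood of `s_τ`, of order `m` at `s_τ`. -/
def HasOrder (L : ℂ → ℂ) (i : ℤ) (τ : ℝ) (m : ℤ) : Prop :=
  Tendsto (size L i τ) (𝓝[>] 0) (𝓝 (-(m : ℝ)))

/-- `A₀` is the part of `A` that is fixed by `Gal(F̄/M)`. -/
def IsFixedPart {F : Type} [Field F] (M : IntermediateField F (AlgebraicClosure F))
    (A₀ A : ArtinRep F) : Prop :=
  ∃ f : A₀.ρ.IntertwiningMap A.ρ, Function.Injective f ∧
    ∀ x, (∃ y, f y = x) ↔ ∀ g ∈ M.fixingSubgroup, A.ρ g x = x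

/-! ### The three parts of the theorem about `M` -/

/-- Part 0: `L(A)` has no zeros to the right of the edge point `s_τ`, near it, and the order of a
meromorphic continuation of `L(A)` to a neighbourhood of `s_τ` is finite and is the order in the sense
of `HasOrder`. -/
def OrdersAreLimits {F : Type} [Field F] [NumberField F] (t : HeightOneSpectrum (𝓞 F) → ℕ → ℂ)
    (frob : HeightOneSpectrum (𝓞 F) → Gal(AlgebraicClosure F/F)) (i : ℤ)
    (S₀ : Finset (HeightOneSpectrum (𝓞 F))) : Prop :=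
  ∀ (A : ArtinRep F) (L : ℂ → ℂ), IsLFunction t frob i S₀ A L → ∀ τ : ℝ,
    (∀ᶠ ε : ℝ in 𝓝[>] 0, L (edgePoint i τ + ε) ≠ 0) ∧
    ∀ Λ : ℂ → ℂ, MeromorphicAt Λ (edgePoint i τ) →
      (∀ᶠ s in 𝓝 (edgePoint i τ), (i : ℝ) / 2 + 1 < s.re → Λ s = L s) →
      ∃ m : ℤ, meromorphicOrderAt Λ (edgePoint i τ) = m ∧ HasOrder L i τ m

/-- Part I: there are a finite Galois extension `M` of `F` and a set `Θ` of at most `ν D² k²` heights
such that for all `A` with `dim End(A) ≤ ν`: (a) if `τ ∉ Θ` or `A` has no nonzero vector fixed by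
`Gal(F̄/M)`, then `|size| < 1/k` at `s_τ` for arbitrarily small `ε`, and the order is `0` if it exists;
(b) the same for the difference between `A` and the part `A₀` of `A` fixed by `Gal(F̄/M)`. -/
def GoverningField {F : Type} [Field F] [NumberField F] (t : HeightOneSpectrum (𝓞 F) → ℕ → ℂ)
    (frob : HeightOneSpectrum (𝓞 F) → Gal(AlgebraicClosure F/F)) (i : ℤ)
    (S₀ : Finset (HeightOneSpectrum (𝓞 F))) (D : ℝ) (ν k : ℕ) : Prop :=
  ∃ (M : IntermediateField F (AlgebraicClosure F)) (Θ : Finset ℝ),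
    FiniteDimensional F M ∧ IsGalois F M ∧ (Θ.card : ℝ) ≤ ν * D ^ 2 * k ^ 2 ∧
    ∀ A : ArtinRep F, homDim A A ≤ ν → ∀ L, IsLFunction t frob i S₀ A L → ∀ τ : ℝ,
      ((τ ∉ Θ ∨ ∀ x, (∀ g ∈ M.fixingSubgroup, A.ρ g x = x) → x = 0) →
        (∃ᶠ ε : ℝ in 𝓝[>] 0, |size L i τ ε| < 1 / k) ∧ ∀ m, HasOrder L i τ m → m = 0) ∧
      ∀ (A₀ : ArtinRep F) (L₀ : ℂ → ℂ), IsFixedPart M A₀ A → IsLFunction t frob i S₀ A₀ L₀ →
        (∃ᶠ ε : ℝ in 𝓝[>] 0, |size L i τ ε - size L₀ i τ ε| < 1 / k) ∧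
        ∀ m m₀, HasOrder L i τ m → HasOrder L₀ i τ m₀ → m = m₀

/-- Part II: there is a finite set `T` of triples `(A_j, τ_j, m_j)`, `A_j` an irreducible
representation of the group `Gal(M/F)` of one finite Galois extension `M` of `F`, `m_j ≠ 0`, the `A_j`
with equal `τ_j` inequivalent, with `∑ m_j² ≤ D²`, such that for every real `τ` and every `A` for whose
irreducible constituents `B` the orders of `L(B)` at `s_τ` exist, the order of `L(A)` at `s_τ` is
`∑_{τ_j = τ} m_j dim Hom(A_j, A)`. -/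
def OrderRepresentation {F : Type} [Field F] [NumberField F]
    (t : HeightOneSpectrum (𝓞 F) → ℕ → ℂ)
    (frob : HeightOneSpectrum (𝓞 F) → Gal(AlgebraicClosure F/F)) (i : ℤ)
    (S₀ : Finset (HeightOneSpectrum (𝓞 F))) (D : ℝ) : Prop :=
  ∃ (T : Finset (ArtinRep F × ℝ × ℤ)) (M : IntermediateField F (AlgebraicClosure F)),
    FiniteDimensional F M ∧ IsGalois F M ∧
    (∀ y ∈ T, y.1.ρ.IsIrreducible ∧ (∀ g ∈ M.fixingSubgroup, y.1.ρ g = 1) ∧ y.2.2 ≠ 0) ∧
    (∀ y ∈ T, ∀ z ∈ T, y ≠ z → y.2.1 = z.2.1 → IsEmpty (y.1.ρ.Equiv z.1.ρ)) ∧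
    (∑ y ∈ T, (y.2.2 : ℝ) ^ 2 ≤ D ^ 2) ∧
    ∀ (τ : ℝ) (A : ArtinRep F),
      (∀ B : ArtinRep F, B.ρ.IsIrreducible → homDim B A ≠ 0 →
        ∃ L m, IsLFunction t frob i S₀ B L ∧ HasOrder L i τ m) →
      ∀ L, IsLFunction t frob i S₀ A L →
        HasOrder L i τ (∑ y ∈ T with y.2.1 = τ, y.2.2 * (homDim y.1 A : ℤ))

/-! ### The motives of Part III -/

/-- The number of points `(x, y)` on the affine curve `y² = f(x)` with coordinates in the extension of
degree `m` of the finite field `k`, the field of the elements of the algebraic closure of `k` that are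
fixed by the `m`-th power of the Frobenius of `k`. -/
noncomputable def affineCount (k : Type) [Field k] (f : k[X]) (m : ℕ) : ℕ :=
  Nat.card {P : AlgebraicClosure k × AlgebraicClosure k //
    P.1 ^ (Nat.card k ^ m) = P.1 ∧ P.2 ^ (Nat.card k ^ m) = P.2 ∧ P.2 ^ 2 = aeval P.1 f}

/-- The trace of the `m`-th power of the Frobenius at `v` on `H¹` of the smooth projective curve
`y² = f(x)`, `deg f` odd: it is `q^m + 1` minus the number of points over the field with `q^m`
elements, and there is one point at infinity. -/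
noncomputable def traceH1 {F : Type} [Field F] [NumberField F] (v : HeightOneSpectrum (𝓞 F))
    (f : (𝓞 F)[X]) (m : ℕ) : ℤ :=
  haveI : v.asIdeal.IsMaximal := v.isMaximal
  letI : Field (𝓞 F ⧸ v.asIdeal) := Ideal.Quotient.field v.asIdeal
  (Ideal.absNorm v.asIdeal : ℤ) ^ m + 1 -
    (affineCount (𝓞 F ⧸ v.asIdeal) (f.map (Ideal.Quotient.mk v.asIdeal)) m + 1)

/-- The cycles of a permutation, including its fixed points. -/
abbrev Cyc {n : ℕ} (σ : Equiv.Perm (Fin n)) := Quotient (Equiv.Perm.SameCycle.setoid σ)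

/-- The length of a cycle. -/
noncomputable def len {n : ℕ} (σ : Equiv.Perm (Fin n)) (q : Cyc σ) : ℕ :=
  Nat.card {x : Fin n // (Quotient.mk _ x : Cyc σ) = q}

open Classical in
/-- The trace of the `m`-th power of the Frobenius at `v` on `Hⁿ(M) = e(H¹(C₁) ⊗ ⋯ ⊗ H¹(C_n))`, `C_j`
the curve `y² = f_j(x)`: it is `∑_σ e_σ sgn(σ) ∏_q Tr(Frob^{m |q|} | H¹(C_q))` over the permutations
`σ`, where `q` runs over the cycles of `σ` and `C_q` is the common value of the `C_j`, `j ∈ q`.  (The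
sign comes from the commutation of classes of odd degree.) -/
noncomputable def traceM {F : Type} [Field F] [NumberField F] {n : ℕ} (f : Fin n → (𝓞 F)[X])
    (e : MonoidAlgebra ℚ (Equiv.Perm (Fin n))) (v : HeightOneSpectrum (𝓞 F)) (m : ℕ) : ℂ :=
  ∑ σ : Equiv.Perm (Fin n), ((e.coeff σ * ((Equiv.Perm.sign σ : ℤ) : ℚ) : ℚ) : ℂ) *
    ∏ q : Cyc σ, (traceH1 v (f q.out) (m * len σ q) : ℂ)

open Classical in
/-- The dimension of `Hⁿ(M)`: the same with `Tr(1 | H¹(C_q)) = 2 genus(C_q) = deg f_q - 1`. -/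
noncomputable def dimM {F : Type} [Field F] [NumberField F] {n : ℕ} (f : Fin n → (𝓞 F)[X])
    (e : MonoidAlgebra ℚ (Equiv.Perm (Fin n))) : ℚ :=
  ∑ σ : Equiv.Perm (Fin n), e.coeff σ * ((Equiv.Perm.sign σ : ℤ) : ℚ) *
    ∏ q : Cyc σ, (((f q.out).natDegree - 1 : ℕ) : ℚ)

/-- The bridge to the main terms. -/
theorem bridge {F : Type} [Field F] [NumberField F] (s : Pool.Agent.W385.GA.Sy F) {i : ℤ}
    (hw : s.w = (i : ℝ) / 2) {A : ArtinRep F} {L : ℂ → ℂ}
    (hL : IsLFunction s.t s.frob i s.S₀ A L) (τ : ℝ) :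
    (∀ᶠ ε : ℝ in 𝓝[>] 0, L (edgePoint i τ + ε) ≠ 0) ∧
      Tendsto (fun ε : ℝ => s.x A τ ε - size L i τ ε) (𝓝[>] 0) (𝓝 0) := by
  obtain ⟨S, B, h1, _, h3, rfl⟩ := hL
  have hedge : edgePoint i τ = ((s.w : ℝ) : ℂ) + 1 + τ * Complex.I := by
    rw [edgePoint, hw]
    push_cast
    rfl
  have h4 := Pool.Agent.W385.GA.size_lim (frob := s.frob) s.hD s.ht A S h1 B τ (by
    intro v hv
    rw [← hedge]
    exact h3 v hv τ)
  rw [← hedge] at h4
  exact h4

theorem lim_of_order {F : Type} [Field F] [NumberField F] (s : Pool.Agent.W385.GA.Sy F) {i : ℤ}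
    (hw : s.w = (i : ℝ) / 2) {A : ArtinRep F} {L : ℂ → ℂ}
    (hL : IsLFunction s.t s.frob i s.S₀ A L) {τ : ℝ} {m : ℤ} (h : HasOrder L i τ m) :
    s.Lim A τ m := by
  have h1 := (bridge s hw hL τ).2.add h
  rw [zero_add] at h1
  refine h1.congr fun ε => ?_
  ring

theorem order_of_lim {F : Type} [Field F] [NumberField F] (s : Pool.Agent.W385.GA.Sy F) {i : ℤ}
    (hw : s.w = (i : ℝ) / 2) {A : ArtinRep F} {L : ℂ → ℂ}
    (hL : IsLFunction s.t s.frob i s.S₀ A L) {τ : ℝ} {m : ℤ} (h : s.Lim A τ m) :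
    HasOrder L i τ m := by
  have h1 : Tendsto (fun ε => s.x A τ ε - (s.x A τ ε - size L i τ ε)) (𝓝[>] 0)
      (𝓝 (-(m : ℝ) - 0)) := h.sub (bridge s hw hL τ).2
  rw [sub_zero] at h1
  refine h1.congr fun ε => ?_
  ring

theorem small_of_non {F : Type} [Field F] [NumberField F] (s : Pool.Agent.W385.GA.Sy F) {c : ℝ}
    {A : ArtinRep F} {τ : ℝ} (h : s.Non c A τ) {y : ℝ → ℝ}
    (hy : Tendsto (fun ε : ℝ => s.x A τ ε - y ε) (𝓝[>] 0) (𝓝 0)) :
    ∃ᶠ ε : ℝ in 𝓝[>] 0, |y ε| < c := by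
  obtain ⟨δ, hδ, h1⟩ := h
  have h2 : ∀ᶠ ε : ℝ in 𝓝[>] 0, |s.x A τ ε - y ε| < c - δ := by
    have := hy.abs
    rw [abs_zero] at this
    exact this.eventually_lt_const (sub_pos.2 hδ)
  refine (h1.and_eventually h2).mono fun ε h => ?_
  have h3 : |y ε| ≤ |s.x A τ ε| + |s.x A τ ε - y ε| := by
    have h4 : y ε = s.x A τ ε - (s.x A τ ε - y ε) := by ring
    calc |y ε| = |s.x A τ ε - (s.x A τ ε - y ε)| := by rw [← h4]
      _ ≤ _ := abs_sub _ _
  linarith [h.1, h.2]

theorem part1 {F : Type} [Field F] [NumberField F] (s : Pool.Agent.W385.GA.Sy F) {i : ℤ}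
    (hw : s.w = (i : ℝ) / 2) (ν k : ℕ) (hk : 0 < k) :
    GoverningField s.t s.frob i s.S₀ s.D ν k := by
  classical
  have hk0 : (0 : ℝ) < k := by exact_mod_cast hk
  have hc : (0 : ℝ) < 1 / k := by positivity
  have hc1 : (1 : ℝ) / k ≤ 1 := by
    rw [div_le_one hk0]
    exact_mod_cast hk
  obtain ⟨T, hT1, hT2⟩ := s.exists_max ν hc
  obtain ⟨M, hM1, hM2, hM3⟩ := Pool.Agent.W385.GA.exists_field (T.image fun y => y.1)
  have hM4 : ∀ y ∈ T, ∀ g ∈ M.fixingSubgroup, y.1.ρ g = 1 := fun y hy =>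
    hM3 y.1 (Finset.mem_image_of_mem _ hy)
  refine ⟨M, T.image fun y => y.2, hM1, hM2, ?_, ?_⟩
  · have h1 : ((T.image fun y => y.2).card : ℝ) ≤ T.card := by
      exact_mod_cast Finset.card_image_le
    refine h1.trans ?_
    rw [one_div, inv_pow, ← div_eq_mul_inv, div_le_iff₀ (by positivity)] at hT1
    exact hT1
  · intro A hA L hL τ
    refine ⟨fun h => ?_, fun A₀ L₀ hA₀ hL₀ => ?_⟩
    · have hnon : s.Non (1 / k) A τ := by
        by_contra hcon
        obtain ⟨y, hy, hyτ, hyh⟩ := hT2 A τ hA hcon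
        rcases h with h | h
        · exact h (Finset.mem_image.2 ⟨y, hy, hyτ⟩)
        · exact hyh (Pool.Agent.W385.GA.homDim_triv (hM4 y hy) h)
      exact ⟨small_of_non s hnon (bridge s hw hL τ).2, fun m hm =>
        s.lim_of_non hc1 hnon (lim_of_order s hw hL hm)⟩
    · obtain ⟨f, hf1, hf2⟩ := hA₀
      obtain ⟨A', hA'1, hA'2⟩ := Pool.Agent.W385.GA.exists_quot f hf1 hf2
      have hdim : homDim A' A' ≤ ν := by
        have e1 : homDim A A = homDim A A₀ + homDim A A' :=
          Pool.Agent.W385.GA.homDim_add_right hA'1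
        have e2 : homDim A A' = homDim A₀ A' + homDim A' A' :=
          Pool.Agent.W385.GA.homDim_add_left hA'1
        omega
      have hnon : s.Non (1 / k) A' τ := by
        by_contra hcon
        obtain ⟨y, hy, hyτ, hyh⟩ := hT2 A' τ hdim hcon
        exact hyh (hA'2 y.1 (hM4 y hy))
      have hx : ∀ ε : ℝ, 0 < ε → s.x A τ ε = s.x A₀ τ ε + s.x A' τ ε := fun ε hε =>
        s.x_add hA'1 τ hε
      refine ⟨small_of_non s hnon ?_, fun m m₀ hm hm₀ => ?_⟩
      · have h1 := (bridge s hw hL τ).2.sub (bridge s hw hL₀ τ).2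
        rw [sub_zero] at h1
        refine h1.congr' ?_
        filter_upwards [self_mem_nhdsWithin] with ε hε
        rw [hx ε hε]
        ring
      · have h1 := lim_of_order s hw hL hm
        have h2 := lim_of_order s hw hL₀ hm₀
        have h3 : s.Lim A' τ (m - m₀) := by
          have h4 : Tendsto (fun ε => s.x A τ ε - s.x A₀ τ ε) (𝓝[>] 0)
              (𝓝 (-(m : ℝ) - -(m₀ : ℝ))) := Tendsto.sub h1 h2
          have h5 : -(m : ℝ) - -(m₀ : ℝ) = -(((m - m₀ : ℤ)) : ℝ) := by
            push_cast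
            ring
          rw [h5] at h4
          refine h4.congr' ?_
          filter_upwards [self_mem_nhdsWithin] with ε hε
          rw [hx ε hε]
          ring
        have h4 := s.lim_of_non hc1 hnon h3
        omega

open Classical in
theorem part2 {F : Type} [Field F] [NumberField F] (s : Pool.Agent.W385.GA.Sy F) {i : ℤ}
    (hw : s.w = (i : ℝ) / 2) :
    ∃ (T : Finset (ArtinRep F × ℝ × ℤ)) (M : IntermediateField F (AlgebraicClosure F)),
      FiniteDimensional F M ∧ IsGalois F M ∧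
      (∀ y ∈ T, y.1.ρ.IsIrreducible ∧ (∀ g ∈ M.fixingSubgroup, y.1.ρ g = 1) ∧ y.2.2 ≠ 0) ∧
      (∀ y ∈ T, ∀ z ∈ T, y ≠ z → y.2.1 = z.2.1 → IsEmpty (y.1.ρ.Equiv z.1.ρ)) ∧
      (∑ y ∈ T, (y.2.2 : ℝ) ^ 2 ≤ s.D ^ 2) ∧
      ∀ (τ : ℝ) (A : ArtinRep F),
        (∀ B : ArtinRep F, B.ρ.IsIrreducible → homDim B A ≠ 0 →
          ∃ L m, IsLFunction s.t s.frob i s.S₀ B L ∧ HasOrder L i τ m) →
        ∀ L, IsLFunction s.t s.frob i s.S₀ A L →
          HasOrder L i τ (∑ y ∈ T, if y.2.1 = τ then y.2.2 * (homDim y.1 A : ℤ) else 0) := by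
  obtain ⟨T, hT1, hT2, hT3, hT4⟩ := s.exists_list
  obtain ⟨M, hM1, hM2, hM3⟩ := Pool.Agent.W385.GA.exists_field (T.image fun y => y.1)
  refine ⟨T, M, hM1, hM2, fun y hy => ⟨(hT1 y hy).1, hM3 y.1 (Finset.mem_image_of_mem _ hy),
    (hT1 y hy).2.1⟩, hT2, hT3, fun τ A hA L hL => ?_⟩
  refine order_of_lim s hw hL (s.lim_formula hT1 hT2 hT4 τ A.n A rfl fun B hB hBA => ?_)
  obtain ⟨L', m, hL', hm⟩ := hA B hB hBA
  exact ⟨m, lim_of_order s hw hL' hm⟩

/-- **One Artin representation governs the orders of all Artin twists at the edge.**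

Let `M` be a Chow motive over a number field `F` with `|t_v(m)| ≤ D q_v^{im/2}` for `v ∉ S₀`; for an
Artin representation `A` of `F` let `L(A)` be the `L`-function of `M ⊗ A`, and
`s_τ = i/2 + 1 + iτ`, `x(A, τ, ε) = log |L(A)(s_τ + ε)| / log (1/ε)`.

Part 0.  `L(A)(s_τ + ε) ≠ 0` for small `ε > 0`, and if `L(A)` has a meromorphic continuation to a
neighbourhood of `s_τ`, then this has a finite order `m` at `s_τ` and `x(A, τ, ε)` tends to `-m`.

Part I (nothing is assumed about continuation).  For all `ν, k ≥ 1` there are a finite Galois extension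
`M` of `F` and a set `Θ` of at most `ν D² k²` real numbers such that for all Artin representations `A`
of `F` with `dim End(A) ≤ ν` (and of any dimension) and all real `τ`: if `τ ∉ Θ`, or if `A` has no
nonzero vector fixed by `Gal(F̄/M)`, then `|x(A, τ, ε)| < 1/k` for arbitrarily small `ε > 0` and the
order of `L(A)` at `s_τ` is `0` if it exists; and if `A₀` is the part of `A` fixed by `Gal(F̄/M)`, then
`|x(A, τ, ε) - x(A₀, τ, ε)| < 1/k` for arbitrarily small `ε > 0`, and the orders of `L(A)` and `L(A₀)`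
at `s_τ` are equal if both exist.

Part II.  There are irreducible representations `A_j` of the group `Gal(M/F)` of one finite Galois
extension `M` of `F`, real numbers `τ_j` and integers `m_j ≠ 0` (finitely many, the `A_j` with equal
`τ_j` inequivalent), such that `∑_j m_j² ≤ D²` and for every real `τ` and every Artin representation
`A` of `F`, of any dimension, for whose irreducible constituents `B` the orders of `L(B)` at `s_τ`
exist, the order of `L(A)` at `s_τ` exists and is `∑_{τ_j = τ} m_j dim Hom(A_j, A)`.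

Part III.  The bound for `t` holds, with `i = n` and `D = dim Hⁿ(M)`, for all motives
`M = e(h¹(C₁) ⊗ ⋯ ⊗ h¹(C_n))`, `C_j` the curve `y² = f_j(x)` over `F` with `deg f_j` odd, `e` an
idempotent of `ℚ[S_n]` which permutes equal factors only. -/
theorem result (F : Type) [Field F] [NumberField F] :
    (∀ (i : ℤ) (D : ℝ) (_ : 0 ≤ D) (t : HeightOneSpectrum (𝓞 F) → ℕ → ℂ)
      (S₀ : Finset (HeightOneSpectrum (𝓞 F))) (_ : WeightBound t i S₀ D)
      (frob : HeightOneSpectrum (𝓞 F) → Gal(AlgebraicClosure F/F))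
      (_ : ∀ v, IsFrobenius v (frob v)),
      OrdersAreLimits t frob i S₀ ∧ (∀ ν k : ℕ, 0 < k → GoverningField t frob i S₀ D ν k) ∧
      OrderRepresentation t frob i S₀ D) ∧
    (∀ (n : ℕ) (f : Fin n → (𝓞 F)[X]) (_ : ∀ j, Odd (f j).natDegree)
      (e : MonoidAlgebra ℚ (Equiv.Perm (Fin n))) (_ : e * e = e)
      (_ : ∀ σ, e.coeff σ ≠ 0 → ∀ j, f (σ j) = f j) (S₀ : Finset (HeightOneSpectrum (𝓞 F)))
      (_ : ∀ v, v ∉ S₀ → ∀ j, 2 * (f j).leadingCoeff ∉ v.asIdeal ∧
        ((f j).map (Ideal.Quotient.mk v.asIdeal)).Separable),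
      0 ≤ dimM f e ∧ WeightBound (traceM f e) n S₀ (dimM f e)) := by
  classical
  refine ⟨?_, ?_⟩
  · intro i D hD t S₀ ht frob hfrob
    set s : Pool.Agent.W385.GA.Sy F :=
      { t := t
        w := (i : ℝ) / 2
        D := D
        S₀ := S₀
        frob := frob
        hD := hD
        ht := by
          intro v hv m
          refine (ht v hv (m + 1) (Nat.le_add_left 1 m)).trans (le_of_eq ?_)
          unfold Pool.Agent.W540.BE.nm
          rw [← Real.rpow_natCast, ← Real.rpow_mul (Nat.cast_nonneg _)]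
          congr 2
          ring
        hfrob := hfrob } with hs
    refine ⟨fun A L hL τ => ?_, fun ν k hk => part1 s rfl ν k hk, ?_⟩
    · have hb := bridge s (i := i) rfl hL τ
      refine ⟨hb.1, fun Λ h1 h2 => ?_⟩
      have hpath : Tendsto (fun ε : ℝ => edgePoint i τ + ε) (𝓝[>] 0) (𝓝 (edgePoint i τ)) := by
        have h3 : Tendsto (fun ε : ℝ => edgePoint i τ + ε) (𝓝 0)
            (𝓝 (edgePoint i τ + ((0 : ℝ) : ℂ))) := by
          have : Continuous fun ε : ℝ => edgePoint i τ + (ε : ℂ) := by fun_prop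
          exact this.tendsto 0
        rw [Complex.ofReal_zero, add_zero] at h3
        exact h3.mono_left nhdsWithin_le_nhds
      have h3 : ∀ᶠ ε : ℝ in 𝓝[>] 0, Λ (edgePoint i τ + ε) = L (edgePoint i τ + ε) := by
        filter_upwards [hpath.eventually h2, self_mem_nhdsWithin] with ε h4 h5
        have hε : (0 : ℝ) < ε := h5
        refine h4 ?_
        simp only [edgePoint, Complex.add_re, Complex.div_ofNat_re, Complex.intCast_re,
          Complex.one_re, Complex.mul_re, Complex.ofReal_re, Complex.I_re, mul_zero,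
          Complex.ofReal_im, Complex.I_im, mul_one, sub_self, add_zero]
        linarith
      obtain ⟨m, hm1, hm2⟩ := Pool.Agent.W540.BE.order_of_size h1 (by
        filter_upwards [h3, hb.1] with ε h4 h5
        rw [h4]
        exact h5)
      refine ⟨m, hm1, hm2.congr' ?_⟩
      filter_upwards [h3] with ε h4
      rw [h4]
      rfl
    · obtain ⟨T, M, h1, h2, h3, h4, h5, h6⟩ := part2 s (i := i) rfl
      refine ⟨T, M, h1, h2, h3, h4, h5, fun τ A hA L hL => ?_⟩
      rw [Finset.sum_filter]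
      exact h6 τ A hA L hL
  · intro n f hodd e he hinv S₀ hS
    refine ⟨Pool.Agent.W350.dim_nonneg e he (fun j => (f j).natDegree - 1)
      (fun σ hσ j => by simp only [hinv σ hσ j]), ?_⟩
    intro v hv m hm
    have : v.asIdeal.IsMaximal := v.isMaximal
    let _ : Field (𝓞 F ⧸ v.asIdeal) := Ideal.Quotient.field v.asIdeal
    have : Finite (𝓞 F ⧸ v.asIdeal) := Ideal.finiteQuotientOfFreeOfNeBot _ v.ne_bot
    let _ : Fintype (𝓞 F ⧸ v.asIdeal) := Fintype.ofFinite _
    have hk : ∀ j : Fin n, ringChar (𝓞 F ⧸ v.asIdeal) ≠ 2 := by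
      intro j h
      apply (hS v hv j).1
      refine v.asIdeal.mul_mem_right _ ?_
      rw [← Ideal.Quotient.eq_zero_iff_mem, map_ofNat]
      have := ringChar.Nat.cast_ringChar (R := 𝓞 F ⧸ v.asIdeal)
      rw [h] at this
      exact_mod_cast this
    have hdeg : ∀ j, ((f j).map (Ideal.Quotient.mk v.asIdeal)).natDegree = (f j).natDegree := by
      intro j
      refine natDegree_map_of_leadingCoeff_ne_zero _ ?_
      rw [Ne, Ideal.Quotient.eq_zero_iff_mem]
      exact fun h => (hS v hv j).1 (v.asIdeal.mul_mem_left _ h)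
    have hcard : Nat.card (𝓞 F ⧸ v.asIdeal) = Ideal.absNorm v.asIdeal := rfl
    have htr : ∀ (g : (𝓞 F)[X]) (m : ℕ), traceH1 v g m =
        (Nat.card (𝓞 F ⧸ v.asIdeal) : ℤ) ^ m + 1 - (Pool.Agent.H126T.affPts (𝓞 F ⧸ v.asIdeal)
          (g.map (Ideal.Quotient.mk v.asIdeal)) 1 m + 1) := by
      intro g m
      have h1 : Pool.Agent.H126T.affPts (𝓞 F ⧸ v.asIdeal)
          (g.map (Ideal.Quotient.mk v.asIdeal)) 1 m =
          affineCount (𝓞 F ⧸ v.asIdeal) (g.map (Ideal.Quotient.mk v.asIdeal)) m := by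
        unfold Pool.Agent.H126T.affPts affineCount
        simp only [map_one, one_mul]
      rw [h1]
      rfl
    rcases Nat.eq_zero_or_pos n with hn | hn
    · subst hn
      have hnn := Pool.Agent.W350.dim_nonneg e he (fun j => (f j).natDegree - 1)
        (fun σ hσ j => by simp only [hinv σ hσ j])
      have h0 : 0 ≤ dimM f e := hnn
      have h1 : traceM f e v m = ((dimM f e : ℚ) : ℂ) := by
        unfold traceM dimM
        push_cast
        refine Finset.sum_congr rfl fun σ _ => ?_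
        have hE : IsEmpty (Cyc σ) := ⟨fun q => q.out.elim0⟩
        rw [Finset.prod_of_isEmpty, Finset.prod_of_isEmpty]
      have h2 : ‖((dimM f e : ℚ) : ℂ)‖ = ((dimM f e : ℚ) : ℝ) := by
        rw [← Complex.ofReal_ratCast, Complex.norm_real, Real.norm_eq_abs, abs_of_nonneg]
        exact_mod_cast h0
      rw [h1, h2]
      simp
    · have h1 := Pool.Agent.W385.GA.Curve.tensor_bound (hk ⟨0, hn⟩)
        (fun j => (f j).map (Ideal.Quotient.mk v.asIdeal)) (fun j => by rw [hdeg]; exact hodd j)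
        e he (fun σ hσ j => by simp only [hinv σ hσ j]) hm
      unfold traceM dimM
      simp only [htr]
      simp only [hdeg] at h1
      exact h1

end Pool.Agent.Results.MP_148101_nt.OneGoverningField
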